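import Pool.Agent.T2H66.BF.Grid

/-!
# Virtually elementary abelian groups have exact factorizations
-/

set_option autoImplicit false

namespace Pool.Agent.T2H66.BF

open Pool.Agent.Results.MP_291637_al.NotBGroup (IsBGroup)

theorem exists_compl_sub {M : Type*} [AddCommGroup M] (p : ℕ) [Fact p.Prime]
    [Module (ZMod p) M] (W : AddSubgroup M) : ∃ A : AddSubgroup M, IsCompl W A := by
  have hcl : ComplementedLattice (Submodule (ZMod p) M) := inferInstance
  obtain ⟨A, hA⟩ := hcl.exists_isCompl (AddSubgroup.toZModSubmodule p W)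
  refine ⟨(AddSubgroup.toZModSubmodule p).symm A, ?_⟩
  rw [OrderIso.isCompl_iff (AddSubgroup.toZModSubmodule (M := M) p), OrderIso.apply_symm_apply]
  exact hA

theorem exists_compl_add {M : Type*} [AddCommGroup M] (p : ℕ) [Fact p.Prime]
    (h : ∀ x : M, p • x = 0) (W : AddSubgroup M) : ∃ A : AddSubgroup M, IsCompl W A :=
  let _ : Module (ZMod p) M := AddCommGroup.zmodModule h
  exists_compl_sub p W

theorem exists_compl {G : Type*} [Group G] (hc : ∀ a b : G, a * b = b * a) (p : ℕ)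
    [Fact p.Prime] (h : ∀ g : G, g ^ p = 1) (W : Subgroup G) : ∃ A : Subgroup G, IsCompl W A := by
  let i1 : CommGroup G := { ‹Group G› with mul_comm := hc }
  obtain ⟨A, hA⟩ := exists_compl_add (M := Additive G) p (fun x => h (Additive.toMul x))
    (Subgroup.toAddSubgroup W)
  refine ⟨Subgroup.toAddSubgroup.symm A, ?_⟩
  rw [OrderIso.isCompl_iff (Subgroup.toAddSubgroup (G := G)), OrderIso.apply_symm_apply]
  exact hA

variable {X : Type} [Group X] {V : Subgroup X} {p : ℕ} [Fact p.Prime]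

/-- finitely generated subgroups of `V` are finite -/
theorem fin_of_fg (hV : ∀ v ∈ V, v ^ p = 1) (hc : ∀ v ∈ V, ∀ w ∈ V, v * w = w * v)
    (H : Subgroup X) (hH : H ≤ V) (hfg : H.FG) : Finite H := by
  let i1 : CommGroup H := { (inferInstance : Group H) with
    mul_comm := fun a b => Subtype.ext (hc _ (hH a.2) _ (hH b.2)) }
  have : Group.FG H := (Group.fg_iff_subgroup_fg H).2 hfg
  refine CommGroup.finite_of_fg_torsion H ?_
  intro x
  rw [isOfFinOrder_iff_pow_eq_one]
  exact ⟨p, (Fact.out : p.Prime).pos, Subtype.ext (hV _ (hH x.2))⟩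

/-- the normal closure of a finite subset of `V` is finite -/
theorem fin_ncl (hV : ∀ v ∈ V, v ^ p = 1) (hc : ∀ v ∈ V, ∀ w ∈ V, v * w = w * v)
    [V.Normal] [V.FiniteIndex] (S : Set X) (hS : S.Finite) (hSV : S ⊆ V) :
    Finite (Subgroup.normalClosure S) ∧ Subgroup.normalClosure S ≤ V := by
  have hle : Subgroup.normalClosure S ≤ V := Subgroup.normalClosure_le_normal hSV
  refine ⟨?_, hle⟩
  refine fin_of_fg (p := p) hV hc _ hle ?_
  have hfin : (Group.conjugatesOfSet S).Finite := by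
    -- conjugates by coset representatives
    have h1 : Group.conjugatesOfSet S ⊆
        (Set.image2 (fun (q : X ⧸ V) (s : X) => q.out * s * q.out⁻¹) Set.univ S) := by
      intro x hx
      obtain ⟨s, hs, hsx⟩ := Group.mem_conjugatesOfSet_iff.1 hx
      obtain ⟨g, rfl⟩ := isConj_iff.1 hsx
      refine ⟨(g : X ⧸ V), Set.mem_univ _, s, hs, ?_⟩
      obtain ⟨v, hv⟩ := QuotientGroup.mk_out_eq_mul V g
      change (g : X ⧸ V).out * s * ((g : X ⧸ V).out)⁻¹ = g * s * g⁻¹
      rw [hv]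
      have := hc _ v.2 _ (hSV hs)
      calc g * (v : X) * s * (g * (v : X))⁻¹ = g * ((v : X) * s) * (v : X)⁻¹ * g⁻¹ := by group
        _ = g * (s * (v : X)) * (v : X)⁻¹ * g⁻¹ := by rw [this]
        _ = g * s * g⁻¹ := by group
    exact (Set.Finite.image2 _ Set.finite_univ hS).subset h1
  exact (Subgroup.fg_iff _).2 ⟨_, rfl, hfin⟩

/-- a finite subgroup of `V` is avoided by a nontrivial finite normal subgroup -/
theorem extend (hV : ∀ v ∈ V, v ^ p = 1) (hc : ∀ v ∈ V, ∀ w ∈ V, v * w = w * v)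
    [V.Normal] [V.FiniteIndex] [Infinite X] (S : Subgroup X) (_ : S ≤ V) [Finite S] :
    ∃ U : Subgroup X, U.Normal ∧ Finite U ∧ U ≤ V ∧ U ⊓ S = ⊥ ∧ ∃ u ∈ U, u ≠ 1 := by
  obtain ⟨C', hC'⟩ := exists_compl (G := V) (fun a b => Subtype.ext (hc _ a.2 _ b.2)) p
    (fun g => Subtype.ext (hV _ g.2)) (S.subgroupOf V)
  -- `C'` has finite index in `V`
  have hfinS : Finite (S.subgroupOf V) := by
    refine Finite.of_injective (fun x : S.subgroupOf V => (⟨((x : V) : X), x.2⟩ : S)) ?_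
    intro a b h
    have := congrArg Subtype.val h
    exact Subtype.ext (Subtype.ext this)
  have hC1 : C'.FiniteIndex := by
    have : Finite (V ⧸ C') := by
      refine Finite.of_surjective (fun x : S.subgroupOf V => ((x : V) : V ⧸ C')) ?_
      intro q
      obtain ⟨v, rfl⟩ := QuotientGroup.mk_surjective q
      have hv : v ∈ S.subgroupOf V ⊔ C' := by rw [hC'.sup_eq_top]; trivial
      let i1 : CommGroup V := { (inferInstance : Group V) with
        mul_comm := fun a b => Subtype.ext (hc _ a.2 _ b.2) }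
      obtain ⟨s, hs, c, hcc, hsc⟩ := Subgroup.mem_sup.1 hv
      refine ⟨⟨s, hs⟩, ?_⟩
      change (s : V ⧸ C') = (v : V ⧸ C')
      rw [QuotientGroup.eq, ← hsc]
      have : s⁻¹ * (s * c) = c := by group
      rw [this]
      exact hcc
    exact Subgroup.finiteIndex_of_finite_quotient
  let C : Subgroup X := C'.map V.subtype
  have hCV : C ≤ V := by
    rintro _ ⟨c, _, rfl⟩
    exact c.2
  have hC2 : C.FiniteIndex := by
    constructor
    have h1 := Subgroup.relIndex_mul_index hCV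
    have h2 : C.relIndex V = C'.index := by
      unfold Subgroup.relIndex
      congr 1
      exact Subgroup.comap_map_eq_self_of_injective V.subtype_injective C'
    rw [h2] at h1
    rw [← h1]
    exact Nat.mul_ne_zero hC1.index_ne_zero (Subgroup.FiniteIndex.index_ne_zero)
  have hN : (C.normalCore).FiniteIndex := inferInstance
  have hNinf : Infinite C.normalCore := by
    by_contra hcon
    rw [not_infinite_iff_finite] at hcon
    have : Finite X := by
      have h1 : Finite (X ⧸ C.normalCore) := Subgroup.finite_quotient_of_finiteIndex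
      exact Finite.of_equiv _ (Subgroup.groupEquivQuotientProdSubgroup (s := C.normalCore)).symm
    exact not_finite X
  obtain ⟨u, hu⟩ := exists_ne (1 : C.normalCore)
  have huV : (u : X) ∈ V := hCV (Subgroup.normalCore_le C u.2)
  obtain ⟨h1, h2⟩ := fin_ncl (p := p) hV hc {(u : X)} (Set.finite_singleton _)
    (by rintro _ rfl; exact huV)
  refine ⟨Subgroup.normalClosure {(u : X)}, Subgroup.normalClosure_normal, h1, h2, ?_,
    u, Subgroup.subset_normalClosure rfl, fun h => hu (Subtype.ext h)⟩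
  have h3 : Subgroup.normalClosure {(u : X)} ≤ C.normalCore :=
    Subgroup.normalClosure_le_normal (by rintro _ rfl; exact u.2)
  rw [eq_bot_iff]
  rintro x ⟨hx1, hx2⟩
  obtain ⟨c, hc1, rfl⟩ := Subgroup.normalCore_le C (h3 hx1)
  have h4 : c ∈ S.subgroupOf V ⊓ C' := ⟨hx2, hc1⟩
  rw [hC'.inf_eq_bot, Subgroup.mem_bot] at h4
  rw [h4]
  exact Subgroup.one_mem _

/-- a state of the construction -/
structure St (V : Subgroup X) where
  P : Subgroup X
  R : Subgroup X
  hP : P.Normal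
  hR : R.Normal
  fP : Finite P
  fR : Finite R
  PV : P ≤ V
  RV : R ≤ V
  dis : P ⊓ R = ⊥

theorem sup_fin (P R : Subgroup X) [P.Normal] [Finite P] [Finite R] : Finite (P ⊔ R : Subgroup X) := by
  have h : ∀ x : (P ⊔ R : Subgroup X), ∃ a : P × R, (a.1 : X) * (a.2 : X) = x := by
    intro x
    obtain ⟨y, hy, z, hz, h⟩ := Subgroup.mem_sup_of_normal_left.1 x.2
    exact ⟨(⟨y, hy⟩, ⟨z, hz⟩), h⟩
  choose f hf using h
  refine Finite.of_injective f ?_
  intro a b hab
  apply Subtype.ext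
  rw [← hf a, ← hf b, hab]

theorem step (hV : ∀ v ∈ V, v ^ p = 1) (hc : ∀ v ∈ V, ∀ w ∈ V, v * w = w * v)
    [V.Normal] [V.FiniteIndex] [Infinite X] (s : St V) :
    ∃ s' : St V, s.P < s'.P ∧ s.R < s'.R := by
  have i1 := s.hP
  have i2 := s.hR
  have i3 := s.fP
  have i4 := s.fR
  have i5 := sup_fin s.P s.R
  obtain ⟨U, hU1, hU2, hU3, hU4, u, hu, hu1⟩ := extend (p := p) hV hc (s.P ⊔ s.R)
    (sup_le s.PV s.RV)
  have i6 : (s.P ⊔ U).Normal := Subgroup.sup_normal _ _
  have i7 : Finite (s.P ⊔ U : Subgroup X) := sup_fin _ _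
  have d1 : (s.P ⊔ U) ⊓ s.R = ⊥ := by
    rw [eq_bot_iff]
    rintro x ⟨hx1, hx2⟩
    obtain ⟨a, ha, b, hb, rfl⟩ := Subgroup.mem_sup_of_normal_left.1 hx1
    have h1 : b ∈ U ⊓ (s.P ⊔ s.R) := by
      refine ⟨hb, ?_⟩
      have : b = a⁻¹ * (a * b) := by group
      rw [this]
      exact mul_mem (Subgroup.mem_sup_left (inv_mem ha)) (Subgroup.mem_sup_right hx2)
    rw [hU4, Subgroup.mem_bot] at h1
    subst h1
    rw [mul_one] at hx2 ⊢
    have : a ∈ s.P ⊓ s.R := ⟨ha, hx2⟩
    rwa [s.dis] at this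
  have i8 := sup_fin (s.P ⊔ U) s.R
  obtain ⟨U', hU'1, hU'2, hU'3, hU'4, u', hu', hu'1⟩ := extend (p := p) hV hc ((s.P ⊔ U) ⊔ s.R)
    (sup_le (sup_le s.PV hU3) s.RV)
  have d2 : (s.P ⊔ U) ⊓ (s.R ⊔ U') = ⊥ := by
    rw [eq_bot_iff]
    rintro x ⟨hx1, hx2⟩
    obtain ⟨a, ha, b, hb, rfl⟩ := Subgroup.mem_sup_of_normal_left.1 hx2
    have h1 : b ∈ U' ⊓ ((s.P ⊔ U) ⊔ s.R) := by
      refine ⟨hb, ?_⟩
      have : b = a⁻¹ * (a * b) := by group
      rw [this]
      exact mul_mem (Subgroup.mem_sup_right (inv_mem ha)) (Subgroup.mem_sup_left hx1)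
    rw [hU'4, Subgroup.mem_bot] at h1
    subst h1
    rw [mul_one] at hx1 ⊢
    have : a ∈ (s.P ⊔ U) ⊓ s.R := ⟨hx1, ha⟩
    rwa [d1] at this
  refine ⟨⟨s.P ⊔ U, s.R ⊔ U', i6, Subgroup.sup_normal _ _, i7, sup_fin _ _, sup_le s.PV hU3,
    sup_le s.RV hU'3, d2⟩, ?_, ?_⟩
  · refine lt_of_le_of_ne le_sup_left ?_
    intro h
    have h1 : u ∈ s.P := by rw [h]; exact Subgroup.mem_sup_right hu
    have h2 : u ∈ U ⊓ (s.P ⊔ s.R) := ⟨hu, Subgroup.mem_sup_left h1⟩
    rw [hU4, Subgroup.mem_bot] at h2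
    exact hu1 h2
  · refine lt_of_le_of_ne le_sup_left ?_
    intro h
    have h1 : u' ∈ s.R := by rw [h]; exact Subgroup.mem_sup_right hu'
    have h2 : u' ∈ U' ⊓ ((s.P ⊔ U) ⊔ s.R) := ⟨hu', Subgroup.mem_sup_right h1⟩
    rw [hU'4, Subgroup.mem_bot] at h2
    exact hu'1 h2

/-- a strictly increasing union is infinite -/
theorem iSup_inf (P : ℕ → Subgroup X) (h : ∀ n, P n < P (n + 1)) : Infinite (⨆ n, P n : Subgroup X) := by
  have hm : StrictMono P := strictMono_nat_of_lt_succ h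
  have hx : ∀ n, ∃ x, x ∈ P (n + 1) ∧ x ∉ P n := fun n => by
    obtain ⟨x, h1, h2⟩ := SetLike.exists_of_lt (h n)
    exact ⟨x, h1, h2⟩
  choose x hx1 hx2 using hx
  refine Infinite.of_injective (fun n => (⟨x n, (le_iSup P (n + 1)) (hx1 n)⟩ :
    (⨆ n, P n : Subgroup X))) ?_
  intro m n hmn
  have hmn' : x m = x n := congrArg Subtype.val hmn
  rcases lt_trichotomy m n with h1 | h1 | h1
  · exact absurd (hm.monotone (show m + 1 ≤ n from h1) (hx1 m)) (by rw [hmn']; exact hx2 n)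
  · exact h1
  · exact absurd (hm.monotone (show n + 1 ≤ m from h1) (hx1 n)) (by rw [← hmn']; exact hx2 m)

/-- a finite supplement of `V` -/
theorem exists_supp (hV : ∀ v ∈ V, v ^ p = 1) (hc : ∀ v ∈ V, ∀ w ∈ V, v * w = w * v)
    [V.Normal] [V.FiniteIndex] : ∃ T : Subgroup X, Finite (V ⊓ T : Subgroup X) ∧
      ∀ x : X, ∃ v ∈ V, ∃ t ∈ T, x = v * t := by
  let T : Subgroup X := Subgroup.closure (Set.range fun q : X ⧸ V => q.out)
  have hT : ∀ q : X ⧸ V, q.out ∈ T := fun q => Subgroup.subset_closure ⟨q, rfl⟩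
  have hfg : T.FG := (Subgroup.fg_iff _).2 ⟨_, rfl, Set.finite_range _⟩
  have i1 : Group.FG T := (Group.fg_iff_subgroup_fg T).2 hfg
  have i2 : (V.subgroupOf T).FiniteIndex := inferInstance
  have h1 : Group.FG (V.subgroupOf T) := Subgroup.fg_of_index_ne_zero _
  refine ⟨T, ?_, ?_⟩
  · let i3 : CommGroup (V.subgroupOf T) := { (inferInstance : Group (V.subgroupOf T)) with
      mul_comm := fun a b => Subtype.ext (Subtype.ext (hc _ a.2 _ b.2)) }
    have h2 : Finite (V.subgroupOf T) := by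
      refine CommGroup.finite_of_fg_torsion (V.subgroupOf T) ?_
      intro x
      rw [isOfFinOrder_iff_pow_eq_one]
      exact ⟨p, (Fact.out : p.Prime).pos, Subtype.ext (Subtype.ext (hV _ x.2))⟩
    refine Finite.of_injective (fun x : (V ⊓ T : Subgroup X) =>
      (⟨⟨(x : X), x.2.2⟩, x.2.1⟩ : V.subgroupOf T)) ?_
    intro x y h
    exact Subtype.ext (congrArg (fun z : V.subgroupOf T => ((z : T) : X)) h)
  · intro x
    obtain ⟨v, hv⟩ := QuotientGroup.mk_out_eq_mul V x
    -- `out = x v`, so `x = out v⁻¹ = (out v⁻¹ out⁻¹) out`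
    refine ⟨(x : X ⧸ V).out * (v : X)⁻¹ * ((x : X ⧸ V).out)⁻¹,
      (inferInstance : V.Normal).conj_mem _ (inv_mem v.2) _, (x : X ⧸ V).out, hT _, ?_⟩
    have : (x : X ⧸ V).out = x * (v : X) := hv
    rw [this]
    group

/-- **Virtually elementary abelian groups** have an exact factorization. -/
theorem elem_fact [Infinite X] (V : Subgroup X) [V.Normal] [V.FiniteIndex]
    (hV : ∀ v ∈ V, v ^ p = 1) (hc : ∀ v ∈ V, ∀ w ∈ V, v * w = w * v) :
    ∃ A B : Subgroup X, A ≤ V ∧ Infinite A ∧ Infinite B ∧ A ⊓ B = ⊥ ∧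
      ∀ x : X, ∃ a ∈ A, ∃ b ∈ B, x = a * b := by
  obtain ⟨T, hT1, hT2⟩ := exists_supp (p := p) hV hc
  have f1 : Finite (V ⊓ T : Subgroup X) := hT1
  obtain ⟨g1, g2⟩ := fin_ncl (p := p) hV hc ((V ⊓ T : Subgroup X) : Set X) (Set.toFinite _)
    (fun x hx => hx.1)
  let s0 : St V :=
    { P := Subgroup.normalClosure ((V ⊓ T : Subgroup X) : Set X)
      R := ⊥
      hP := Subgroup.normalClosure_normal
      hR := inferInstance
      fP := g1
      fR := inferInstance
      PV := g2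
      RV := bot_le
      dis := inf_bot_eq _ }
  choose nx hnx1 hnx2 using step (p := p) hV hc
  let s : ℕ → St V := fun n => nx^[n] s0
  have hs : ∀ n, s (n + 1) = nx (s n) := fun n => Function.iterate_succ_apply' nx n s0
  have hP : ∀ n, (s n).P < (s (n + 1)).P := fun n => by rw [hs]; exact hnx1 _
  have hR : ∀ n, (s n).R < (s (n + 1)).R := fun n => by rw [hs]; exact hnx2 _
  have mP : Monotone fun n => (s n).P := (strictMono_nat_of_lt_succ hP).monotone
  have mR : Monotone fun n => (s n).R := (strictMono_nat_of_lt_succ hR).monotone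
  let W : Subgroup X := ⨆ n, (s n).P
  let R : Subgroup X := ⨆ n, (s n).R
  have memW : ∀ x, x ∈ W ↔ ∃ n, x ∈ (s n).P := fun x => Subgroup.mem_iSup_of_directed mP.directed_le
  have memR : ∀ x, x ∈ R ↔ ∃ n, x ∈ (s n).R := fun x => Subgroup.mem_iSup_of_directed mR.directed_le
  have iW : Infinite W := iSup_inf _ hP
  have iR : Infinite R := iSup_inf _ hR
  have hWV : W ≤ V := iSup_le fun n => (s n).PV
  have hRV : R ≤ V := iSup_le fun n => (s n).RV
  have hWn : W.Normal := ⟨fun x hx g => by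
    obtain ⟨n, hn⟩ := (memW x).1 hx
    exact (memW _).2 ⟨n, (s n).hP.conj_mem x hn g⟩⟩
  have hWR : ∀ x, x ∈ W → x ∈ R → x = 1 := by
    intro x h1 h2
    obtain ⟨m, hm⟩ := (memW x).1 h1
    obtain ⟨n, hn⟩ := (memR x).1 h2
    have h3 : x ∈ (s (max m n)).P ⊓ (s (max m n)).R :=
      ⟨mP (le_max_left _ _) hm, mR (le_max_right _ _) hn⟩
    rw [(s _).dis, Subgroup.mem_bot] at h3
    exact h3
  have hTW : ∀ x, x ∈ V → x ∈ T → x ∈ W := fun x h1 h2 =>
    (memW x).2 ⟨0, Subgroup.subset_normalClosure ⟨h1, h2⟩⟩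
  -- a complement of `W` in `V`
  obtain ⟨A', hA'⟩ := exists_compl (G := V) (fun a b => Subtype.ext (hc _ a.2 _ b.2)) p
    (fun g => Subtype.ext (hV _ g.2)) (W.subgroupOf V)
  let A : Subgroup X := A'.map V.subtype
  have hAV : A ≤ V := by
    rintro _ ⟨c, _, rfl⟩
    exact c.2
  have hAW : ∀ x, x ∈ A → x ∈ W → x = 1 := by
    rintro _ ⟨c, hc1, rfl⟩ h2
    have h4 : c ∈ W.subgroupOf V ⊓ A' := ⟨h2, hc1⟩
    rw [hA'.inf_eq_bot, Subgroup.mem_bot] at h4
    rw [h4]
    rfl
  have hdec : ∀ v ∈ V, ∃ a ∈ A, ∃ w ∈ W, v = a * w := by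
    intro v hv
    have h1 : (⟨v, hv⟩ : V) ∈ W.subgroupOf V ⊔ A' := by rw [hA'.sup_eq_top]; trivial
    let i1 : CommGroup V := { (inferInstance : Group V) with
        mul_comm := fun a b => Subtype.ext (hc _ a.2 _ b.2) }
    obtain ⟨w, hw, c, hcc, hwc⟩ := Subgroup.mem_sup.1 h1
    refine ⟨c, ⟨c, hcc, rfl⟩, w, hw, ?_⟩
    have h2 : (w : X) * (c : X) = v := congrArg Subtype.val hwc
    rw [← h2]
    exact hc _ w.2 _ c.2
  have iA : Infinite A := by
    have h1 : ∀ r : R, ∃ a : A, ∃ w ∈ W, (r : X) = a * w := by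
      intro r
      obtain ⟨a, ha, w, hw, h⟩ := hdec r (hRV r.2)
      exact ⟨⟨a, ha⟩, w, hw, h⟩
    choose f w hw hf using h1
    refine Infinite.of_injective f ?_
    intro r r' h
    have h2 : (r : X)⁻¹ * r' = (w r)⁻¹ * w r' := by
      rw [hf r, hf r', h]
      group
    have h3 := hWR ((r : X)⁻¹ * r') (by rw [h2]; exact mul_mem (inv_mem (hw r)) (hw r'))
      (mul_mem (inv_mem r.2) r'.2)
    exact Subtype.ext (inv_mul_eq_one.1 h3)
  let B : Subgroup X := W ⊔ T
  have iB : Infinite B := by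
    refine Infinite.of_injective (fun x : W => (⟨x, Subgroup.mem_sup_left x.2⟩ : B)) ?_
    intro x y h
    exact Subtype.ext (congrArg (fun z : B => (z : X)) h)
  refine ⟨A, B, hAV, iA, iB, ?_, ?_⟩
  · rw [eq_bot_iff]
    rintro x ⟨hx1, hx2⟩
    obtain ⟨w, hw, t, ht, rfl⟩ := Subgroup.mem_sup_of_normal_left.1 hx2
    have h1 : t ∈ V := by
      have : t = w⁻¹ * (w * t) := by group
      rw [this]
      exact mul_mem (inv_mem (hWV hw)) (hAV hx1)
    exact hAW _ hx1 (mul_mem hw (hTW t h1 ht))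
  · intro x
    obtain ⟨v, hv, t, ht, rfl⟩ := hT2 x
    obtain ⟨a, ha, w, hw, rfl⟩ := hdec v hv
    exact ⟨a, ha, w * t, mul_mem (Subgroup.mem_sup_left hw) (Subgroup.mem_sup_right ht),
      mul_assoc _ _ _⟩

/-- an infinite elementary abelian supplement of a normal subgroup -/
theorem split [Countable X] (E N : Subgroup X) [Infinite E] [N.Normal]
    (hE : ∀ v ∈ E, v ^ p = 1) (hc : ∀ v ∈ E, ∀ w ∈ E, v * w = w * v) (hEN : E ⊓ N = ⊥)
    (hfi : (E ⊔ N).FiniteIndex) : ¬ IsBGroup X := by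
  let π : X →* X ⧸ N := QuotientGroup.mk' N
  have hπ : Function.Surjective π := QuotientGroup.mk'_surjective N
  have ker : ∀ x, π x = 1 → x ∈ N := fun x h => (QuotientGroup.eq_one_iff x).1 h
  have inj : ∀ x, x ∈ E → π x = 1 → x = 1 := by
    intro x h1 h2
    have : x ∈ E ⊓ N := ⟨h1, ker x h2⟩
    rw [hEN] at this
    exact Subgroup.mem_bot.1 this
  let V0 : Subgroup (X ⧸ N) := E.map π
  have hV0 : V0.FiniteIndex := by
    have h1 : V0.comap π = E ⊔ N := by
      rw [Subgroup.comap_map_eq, QuotientGroup.ker_mk']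
    constructor
    rw [← Subgroup.index_comap_of_surjective V0 hπ, h1]
    exact hfi.index_ne_zero
  have hq : Infinite (X ⧸ N) := by
    refine Infinite.of_injective (fun x : E => π x) ?_
    intro x y h
    have h1 : π ((x : X)⁻¹ * y) = 1 := by
      rw [map_mul, map_inv]
      change (π x)⁻¹ * π y = 1
      rw [show π x = π y from h, inv_mul_cancel]
    exact Subtype.ext (inv_mul_eq_one.1 (inj _ (mul_mem (inv_mem x.2) y.2) h1))
  have e1 : ∀ v ∈ V0.normalCore, v ^ p = 1 := by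
    intro v hv
    obtain ⟨x, hx, rfl⟩ := Subgroup.normalCore_le V0 hv
    rw [← map_pow, hE x hx, map_one]
  have e2 : ∀ v ∈ V0.normalCore, ∀ w ∈ V0.normalCore, v * w = w * v := by
    intro v hv w hw
    obtain ⟨x, hx, rfl⟩ := Subgroup.normalCore_le V0 hv
    obtain ⟨y, hy, rfl⟩ := Subgroup.normalCore_le V0 hw
    rw [← map_mul, hc x hx y hy, map_mul]
  obtain ⟨A', B', hA1, iA, iB, hAB, hfac⟩ := elem_fact (p := p) V0.normalCore e1 e2
  have lift : ∀ a ∈ A', ∃ x ∈ E, π x = a := by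
    intro a ha
    obtain ⟨x, hx, h⟩ := Subgroup.normalCore_le V0 (hA1 ha)
    exact ⟨x, hx, h⟩
  let A : Subgroup X := E ⊓ A'.comap π
  let B : Subgroup X := B'.comap π
  have jA : Infinite A := by
    have h1 : ∀ a : A', ∃ x : A, π x = a := by
      intro a
      obtain ⟨x, hx, h⟩ := lift a a.2
      exact ⟨⟨x, hx, by change π x ∈ A'; rw [h]; exact a.2⟩, h⟩
    choose f hf using h1
    refine Infinite.of_injective f ?_
    intro a b h
    apply Subtype.ext
    rw [← hf a, ← hf b, h]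
  have jB : Infinite B := by
    have h1 : ∀ b : B', ∃ x : B, π x = b := by
      intro b
      obtain ⟨x, hx⟩ := hπ b
      exact ⟨⟨x, by change π x ∈ B'; rw [hx]; exact b.2⟩, hx⟩
    choose f hf using h1
    refine Infinite.of_injective f ?_
    intro a b h
    apply Subtype.ext
    rw [← hf a, ← hf b, h]
  refine factor A B ?_ ?_
  · rw [eq_bot_iff]
    rintro x ⟨⟨hx1, hx2⟩, hx3⟩
    have h1 : π x ∈ A' ⊓ B' := ⟨hx2, hx3⟩
    rw [hAB, Subgroup.mem_bot] at h1
    exact Subgroup.mem_bot.2 (inj x hx1 h1)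
  · intro x
    obtain ⟨a, ha, b, hb, hab⟩ := hfac (π x)
    obtain ⟨y, hy, rfl⟩ := lift a ha
    refine ⟨y, ⟨hy, ha⟩, y⁻¹ * x, ?_, by group⟩
    change π (y⁻¹ * x) ∈ B'
    rw [map_mul, map_inv, hab, inv_mul_cancel_left]
    exact hb

omit [Fact p.Prime] in
/-- **Virtually abelian groups of squarefree exponent.** -/
theorem sqfree [Infinite X] [Countable X] (n : ℕ) (hn : Squarefree n) (V : Subgroup X)
    [V.FiniteIndex] (hV : ∀ v ∈ V, v ^ n = 1) (hc : ∀ v ∈ V, ∀ w ∈ V, v * w = w * v) :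
    ¬ IsBGroup X := by
  let K : Subgroup X := V.normalCore
  have hKV : K ≤ V := Subgroup.normalCore_le V
  have hKn : K.Normal := Subgroup.normalCore_normal V
  have hKf : K.FiniteIndex := inferInstance
  have kV : ∀ v ∈ K, v ^ n = 1 := fun v hv => hV v (hKV hv)
  have kc : ∀ v ∈ K, ∀ w ∈ K, v * w = w * v := fun v hv w hw => hc v (hKV hv) w (hKV hw)
  have hn0 : n ≠ 0 := hn.ne_zero
  -- the subgroups of the elements of `K` killed by `m`
  let Z : ℕ → Subgroup X := fun m =>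
    { carrier := {v | v ∈ K ∧ v ^ m = 1}
      one_mem' := ⟨one_mem _, one_pow _⟩
      mul_mem' := fun {a b} ha hb => ⟨mul_mem ha.1 hb.1, by
        have : Commute a b := kc a ha.1 b hb.1
        rw [this.mul_pow, ha.2, hb.2, one_mul]⟩
      inv_mem' := fun {a} ha => ⟨inv_mem ha.1, by rw [inv_pow, ha.2, inv_one]⟩ }
  have hZn : ∀ m, (Z m).Normal := fun m => ⟨fun v hv g => ⟨hKn.conj_mem v hv.1 g, by
    rw [conj_pow, hv.2, mul_one, mul_inv_cancel]⟩⟩
  have hKinf : Infinite K := by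
    by_contra hcon
    rw [not_infinite_iff_finite] at hcon
    have : Finite X := by
      have h1 : Finite (X ⧸ K) := Subgroup.finite_quotient_of_finiteIndex
      exact Finite.of_equiv _ (Subgroup.groupEquivQuotientProdSubgroup (s := K)).symm
    exact not_finite X
  obtain ⟨q, hq, hqn, hqi⟩ : ∃ q : ℕ, q.Prime ∧ q ∣ n ∧ Infinite (Z q) := by
    by_contra hcon
    push Not at hcon
    have hfin : ∀ q : n.primeFactors, Finite (Z q) := by
      intro q
      have h1 := hcon q (Nat.prime_of_mem_primeFactors q.2) (Nat.dvd_of_mem_primeFactors q.2)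
      exact not_infinite_iff_finite.1 (by simpa using h1)
    let f : K → (∀ q : n.primeFactors, Z q) := fun v q => ⟨(v : X) ^ (n / q),
      pow_mem v.2 _, by
        rw [← pow_mul, Nat.div_mul_cancel (Nat.dvd_of_mem_primeFactors q.2)]
        exact kV v v.2⟩
    have hf : Function.Injective f := by
      intro v w h
      have h1 : ∀ q ∈ n.primeFactors, ((v : X) * (w : X)⁻¹) ^ (n / q) = 1 := by
        intro q hq
        have h2 := congrArg (fun g => ((g ⟨q, hq⟩ : Z q) : X)) h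
        have h3 : (v : X) ^ (n / q) = (w : X) ^ (n / q) := h2
        have h4 : Commute (v : X) (w : X)⁻¹ := kc v v.2 _ (inv_mem w.2)
        rw [h4.mul_pow, inv_pow, h3, mul_inv_cancel]
      have h5 : orderOf ((v : X) * (w : X)⁻¹) = 1 := by
        by_contra hne
        obtain ⟨r, hr, hr1⟩ := Nat.exists_prime_and_dvd hne
        have h6 : orderOf ((v : X) * (w : X)⁻¹) ∣ n :=
          orderOf_dvd_of_pow_eq_one (kV _ (mul_mem v.2 (inv_mem w.2)))
        have h7 : r ∣ n := hr1.trans h6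
        have h8 := orderOf_dvd_of_pow_eq_one (h1 r (Nat.mem_primeFactors.2 ⟨hr, h7, hn0⟩))
        have h9 : r * r ∣ n := by
          obtain ⟨c, hc'⟩ := hr1.trans h8
          refine ⟨c, ?_⟩
          have := Nat.mul_div_cancel' h7
          rw [hc'] at this
          rw [← this]
          ring
        exact hr.one_lt.ne' (Nat.isUnit_iff.1 (hn r h9))
      exact Subtype.ext (mul_inv_eq_one.1 (orderOf_eq_one_iff.1 h5))
    have : Finite K := Finite.of_injective f hf
    exact not_finite K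
  have : Fact q.Prime := ⟨hq⟩
  have hcop : Nat.Coprime q (n / q) := by
    rw [hq.coprime_iff_not_dvd]
    intro h
    have h9 : q * q ∣ n := by
      obtain ⟨c, hc'⟩ := h
      refine ⟨c, ?_⟩
      have := Nat.mul_div_cancel' hqn
      rw [hc'] at this
      rw [← this]
      ring
    exact hq.one_lt.ne' (Nat.isUnit_iff.1 (hn q h9))
  have i1 : (Z (n / q)).Normal := hZn _
  refine split (p := q) (Z q) (Z (n / q)) (fun v hv => hv.2)
    (fun v hv w hw => kc v hv.1 w hw.1) ?_ ?_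
  · rw [eq_bot_iff]
    rintro v ⟨h1, h2⟩
    have h3 : orderOf v ∣ Nat.gcd q (n / q) :=
      Nat.dvd_gcd (orderOf_dvd_of_pow_eq_one h1.2) (orderOf_dvd_of_pow_eq_one h2.2)
    rw [hcop.gcd_eq_one, Nat.dvd_one, orderOf_eq_one_iff] at h3
    exact Subgroup.mem_bot.2 h3
  · have hle : K ≤ Z q ⊔ Z (n / q) := by
      intro v hv
      have hb : (q : ℤ) * q.gcdA (n / q) + ((n / q : ℕ) : ℤ) * q.gcdB (n / q) = 1 := by
        rw [← Nat.gcd_eq_gcd_ab, hcop.gcd_eq_one]
        rfl
      have h1 : v = v ^ (((n / q : ℕ) : ℤ) * q.gcdB (n / q)) * v ^ ((q : ℤ) * q.gcdA (n / q)) := by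
        rw [← zpow_add, add_comm, hb, zpow_one]
      rw [h1]
      have hvn := kV v hv
      refine mul_mem (Subgroup.mem_sup_left ⟨zpow_mem hv _, ?_⟩)
        (Subgroup.mem_sup_right ⟨zpow_mem hv _, ?_⟩)
      · rw [← zpow_natCast, ← zpow_mul,
          show ((n / q : ℕ) : ℤ) * q.gcdB (n / q) * (q : ℤ) = (((n / q) * q : ℕ) : ℤ) * q.gcdB (n / q) by
            push_cast; ring, Nat.div_mul_cancel hqn, zpow_mul, zpow_natCast, hvn, one_zpow]
      · rw [← zpow_natCast, ← zpow_mul,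
          show (q : ℤ) * q.gcdA (n / q) * ((n / q : ℕ) : ℤ) = (((n / q) * q : ℕ) : ℤ) * q.gcdA (n / q) by
            push_cast; ring, Nat.div_mul_cancel hqn, zpow_mul, zpow_natCast, hvn, one_zpow]
    exact Subgroup.finiteIndex_of_le hle

end Pool.Agent.T2H66.BF
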