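import Pool.Agent.H829R3.BG5

/-!
# A countable group with an exact factorization into two infinite subgroups is not a B-group
-/

set_option autoImplicit false

namespace Pool.Agent.T2H66.BF

open MulAction
open Pool.Agent.H829R3.BG5 (Aut preprimitive_of_connect regular)
open Pool.Agent.Results.MP_291637_al.NotBGroup (IsBGroup)

/-- the rook graph, transported to `X` -/
def rook {X : Type} (e : X ≃ ℕ × ℕ) (x y : X) : Prop := (e x).1 = (e y).1 ∨ (e x).2 = (e y).2

theorem exists_perm {c d c' d' : ℕ} (h : c ≠ d) (h' : c' ≠ d') :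
    ∃ τ : Equiv.Perm ℕ, τ c = c' ∧ τ d = d' := by
  refine ⟨(Equiv.swap c c').trans (Equiv.swap (Equiv.swap c c' d) d'), ?_, ?_⟩
  · rw [Equiv.trans_apply, Equiv.swap_apply_left]
    apply Equiv.swap_apply_of_ne_of_ne _ h'
    intro h1
    have h2 : Equiv.swap c c' c = Equiv.swap c c' d := by rw [Equiv.swap_apply_left]; exact h1
    exact h ((Equiv.swap c c').injective h2)
  · rw [Equiv.trans_apply, Equiv.swap_apply_left]

theorem mem_prod {X : Type} (e : X ≃ ℕ × ℕ) (σ τ : Equiv.Perm ℕ) :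
    e.trans ((Equiv.prodCongr σ τ).trans e.symm) ∈ Aut (rook e) := by
  intro x y
  simp [rook]

theorem mem_comm {X : Type} (e : X ≃ ℕ × ℕ) :
    e.trans ((Equiv.prodComm ℕ ℕ).trans e.symm) ∈ Aut (rook e) := by
  intro x y
  simp [rook, or_comm]

theorem connect (R : ℕ × ℕ → ℕ × ℕ → Prop) (Rs : ∀ x y, R x y → R y x)
    (Rt : ∀ x y z, R x y → R y z → R x z)
    (h1 : ∀ (σ τ : Equiv.Perm ℕ) (a b a' b' : ℕ), R (a, b) (a', b') →
      R (σ a, τ b) (σ a', τ b'))
    (h2 : ∀ a b a' b' : ℕ, R (a, b) (a', b') → R (b, a) (b', a'))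
    (x y : ℕ × ℕ) (hxy : x ≠ y) (hR : R x y) : ∀ u v, R u v := by
  obtain ⟨a, b⟩ := x
  obtain ⟨a', b'⟩ := y
  have key : ∃ p c d : ℕ, c ≠ d ∧ R (p, c) (p, d) := by
    by_cases ha : a = a'
    · subst ha
      exact ⟨a, b, b', fun h => hxy (by rw [h]), hR⟩
    · by_cases hb : b = b'
      · subst hb
        exact ⟨b, a, a', ha, h2 _ _ _ _ hR⟩
      · obtain ⟨c, hc1, hc2⟩ : ∃ c : ℕ, c ≠ b ∧ c ≠ b' := ⟨b + b' + 1, by omega, by omega⟩
        refine ⟨a', b', c, hc2.symm, Rt _ _ _ (Rs _ _ hR) ?_⟩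
        have h3 := h1 1 (Equiv.swap b' c) _ _ _ _ hR
        rwa [Equiv.swap_apply_of_ne_of_ne hb hc1.symm, Equiv.swap_apply_left,
          Equiv.Perm.one_apply, Equiv.Perm.one_apply] at h3
  obtain ⟨p, c, d, hcd, hp⟩ := key
  have row : ∀ q c' d' : ℕ, c' ≠ d' → R (q, c') (q, d') := by
    intro q c' d' h
    obtain ⟨τ, h3, h4⟩ := exists_perm hcd h
    have h5 := h1 (Equiv.swap p q) τ _ _ _ _ hp
    rwa [Equiv.swap_apply_left, h3, h4] at h5
  have refl : ∀ q c' : ℕ, R (q, c') (q, c') := fun q c' =>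
    Rt _ _ _ (row q c' (c' + 1) (by omega)) (row q (c' + 1) c' (by omega))
  have row' : ∀ q c' d' : ℕ, R (q, c') (q, d') := by
    intro q c' d'
    by_cases h : c' = d'
    · rw [h]; exact refl q d'
    · exact row q c' d' h
  rintro ⟨u1, u2⟩ ⟨v1, v2⟩
  exact Rt _ _ _ (row' u1 u2 v2) (h2 _ _ _ _ (row' v2 u1 v1))

theorem grid {X : Type} [Group X] (e : X ≃ ℕ × ℕ)
    (hinv : ∀ g x y : X, rook e (x * g) (y * g) ↔ rook e x y) : ¬ IsBGroup X := by
  intro hB
  have hprim : IsPreprimitive (Aut (rook e)) X := by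
    refine preprimitive_of_connect (Aut (rook e)) ?_ ?_
    · intro x y
      refine ⟨_, mem_prod e (Equiv.swap (e x).1 (e y).1) (Equiv.swap (e x).2 (e y).2), ?_⟩
      rw [Equiv.trans_apply, Equiv.trans_apply, Equiv.symm_apply_eq]
      ext <;> simp
    · intro R Rs Rt Rinv x y hxy hR
      have hc := connect (fun a b => R (e.symm a) (e.symm b)) (fun a b h => Rs _ _ h)
        (fun a b c h h' => Rt _ _ _ h h')
        (by
          intro σ τ a b a' b' h
          have := Rinv _ (mem_prod e σ τ) _ _ h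
          simpa using this)
        (by
          intro a b a' b' h
          have := Rinv _ (mem_comm e) _ _ h
          simpa using this)
        (e x) (e y) (fun h => hxy (e.injective h)) (by simpa using hR)
      intro u v
      have := hc (e u) (e v)
      simpa using this
  have h3 := hB X (Aut (rook e)) hprim (regular (Aut (rook e)) (fun g x y => hinv g⁻¹ x y))
  rw [is_two_pretransitive_iff] at h3
  obtain ⟨⟨σ, hσ⟩, h4, h5⟩ := h3 (a := e.symm (0, 0)) (b := e.symm (0, 1))
    (c := e.symm (0, 0)) (d := e.symm (1, 1)) (by simp) (by simp)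
  change σ _ = _ at h4
  change σ _ = _ at h5
  have h6 := (hσ (e.symm (0, 0)) (e.symm (0, 1))).mpr (by simp [rook])
  rw [h4, h5] at h6
  simp [rook] at h6

/-- **Exact factorizations.** A countable group `X = A B` with infinite subgroups `A`, `B` and
`A ∩ B = 1` is not a B-group. -/
theorem factor {X : Type} [Group X] [Countable X] (A B : Subgroup X) [Infinite A] [Infinite B]
    (hAB : A ⊓ B = ⊥) (hX : ∀ x : X, ∃ a ∈ A, ∃ b ∈ B, x = a * b) : ¬ IsBGroup X := by
  classical
  let QA := Quotient (QuotientGroup.rightRel A)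
  let QB := Quotient (QuotientGroup.rightRel B)
  let mA : X → QA := fun x => Quotient.mk _ x
  let mB : X → QB := fun x => Quotient.mk _ x
  have mA_eq : ∀ x y, mA x = mA y ↔ y * x⁻¹ ∈ A := by
    intro x y
    change Quotient.mk _ x = Quotient.mk _ y ↔ _
    rw [Quotient.eq, QuotientGroup.rightRel_apply]
  have mB_eq : ∀ x y, mB x = mB y ↔ y * x⁻¹ ∈ B := by
    intro x y
    change Quotient.mk _ x = Quotient.mk _ y ↔ _
    rw [Quotient.eq, QuotientGroup.rightRel_apply]
  have triv : ∀ x, x ∈ A → x ∈ B → x = 1 := by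
    intro x h1 h2
    have : x ∈ A ⊓ B := ⟨h1, h2⟩
    rw [hAB] at this
    exact Subgroup.mem_bot.1 this
  have : Infinite QA := by
    refine Infinite.of_injective (fun b : B => mA b) ?_
    intro b b' h
    have h1 := (mA_eq _ _).1 h
    have h2 := triv _ h1 (B.mul_mem b'.2 (B.inv_mem b.2))
    exact Subtype.ext (mul_inv_eq_one.1 h2).symm
  have : Infinite QB := by
    refine Infinite.of_injective (fun a : A => mB a) ?_
    intro b b' h
    have h1 := (mB_eq _ _).1 h
    have h2 := triv _ (A.mul_mem b'.2 (A.inv_mem b.2)) h1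
    exact Subtype.ext (mul_inv_eq_one.1 h2).symm
  have : Countable QA := Quotient.countable
  have : Countable QB := Quotient.countable
  obtain ⟨α⟩ : Nonempty (QA ≃ ℕ) := nonempty_equiv_of_countable
  obtain ⟨β⟩ : Nonempty (QB ≃ ℕ) := nonempty_equiv_of_countable
  have bij : Function.Bijective (fun x : X => (mA x, mB x)) := by
    constructor
    · intro x y h
      have h1 := congrArg Prod.fst h
      have h2 := congrArg Prod.snd h
      have h3 := triv _ ((mA_eq _ _).1 h1) ((mB_eq _ _).1 h2)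
      exact (mul_inv_eq_one.1 h3).symm
    · rintro ⟨p, q⟩
      obtain ⟨x, rfl⟩ := Quotient.exists_rep p
      obtain ⟨y, rfl⟩ := Quotient.exists_rep q
      obtain ⟨a, ha, b, hb, hab⟩ := hX (x * y⁻¹)
      -- `a⁻¹ x = b y`
      refine ⟨a⁻¹ * x, Prod.ext ?_ ?_⟩
      · change mA (a⁻¹ * x) = mA x
        rw [mA_eq]
        have : x * (a⁻¹ * x)⁻¹ = a := by group
        rw [this]
        exact ha
      · change mB (a⁻¹ * x) = mB y
        rw [mB_eq]
        have h1 : x = a * b * y := by rw [← hab]; group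
        have : y * (a⁻¹ * x)⁻¹ = b⁻¹ := by rw [h1]; group
        rw [this]
        exact B.inv_mem hb
  let e : X ≃ ℕ × ℕ := (Equiv.ofBijective _ bij).trans (Equiv.prodCongr α β)
  have he1 : ∀ x y, (e x).1 = (e y).1 ↔ y * x⁻¹ ∈ A := by
    intro x y
    rw [← mA_eq]
    change α (mA x) = α (mA y) ↔ _
    exact α.injective.eq_iff
  have he2 : ∀ x y, (e x).2 = (e y).2 ↔ y * x⁻¹ ∈ B := by
    intro x y
    rw [← mB_eq]
    change β (mB x) = β (mB y) ↔ _
    exact β.injective.eq_iff
  refine grid e ?_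
  intro g x y
  unfold rook
  rw [he1, he2, he1, he2]
  have : y * g * (x * g)⁻¹ = y * x⁻¹ := by group
  rw [this]

end Pool.Agent.T2H66.BF
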